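import Pool.Agent.Work.MP_cdf40b_al.Hedge.Main3

namespace Pool.Agent.Results.MP_cdf40b_al.GeneralWeight

open Pool.Agent.Work.MP_cdf40b_al

/-- Restriction of the irreducible `sp₆(ℂ)`-module of highest weight `a ω₁ + b ω₂ + c ω₃`, `c ≥ 1`,
to `sl₂³`. -/
theorem result (a b c : ℕ) (_hc : 1 ≤ c) (V : Type*) [AddCommGroup V] [Module ℂ V]
    [i1 : LieRingModule Sp6 V] [i2 : LieModule ℂ Sp6 V] [i3 : LieModule.IsIrreducible ℂ Sp6 V]
    (v : V) (hv : v ≠ 0)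
    (hw : ∀ A : Sp6, InBorel (mat A) →
      ⁅A, v⁆ = (((a : ℂ) + b + c) * mat A (Sum.inl 0) (Sum.inl 0) +
        ((b : ℂ) + c) * mat A (Sum.inl 1) (Sum.inl 1) +
        c * mat A (Sum.inl 2) (Sum.inl 2)) • v) :
    SumIso (fun A : Sp6 => InH (mat A)) (fun (A : Sp6) (u : V) => ⁅A, u⁆)
      (fun A : Sp6 => act (mat A))
      (fun j : (Σ x : Fin 3 → ℕ, Fin (mu3 a b c x)) => piMod j.1) :=
  @Hedge.main3 a b c V _ _ i1 i2 i3 v hv hw

end Pool.Agent.Results.MP_cdf40b_al.GeneralWeight
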